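import Mathlib

set_option autoImplicit false

/-! Free rational groups of rank at least two act freely on no `Λ`-tree. -/

namespace Pool.Agent.Results.MP_c6101b_al.FreeQGroupNotTreeFree

universe u v w

/-! ### Rational groups and free rational groups -/

/-- A `ℚ`-group: for every `n ≥ 1` each element has exactly one `n`-th root. -/
def IsQGroup (H : Type u) [Group H] : Prop :=
  ∀ n : ℕ, 1 ≤ n → ∀ g : H, ∃! x : H, x ^ n = g

/-- `F` together with `ι : X → F` is the free `ℚ`-group on the set `X`: `F` is a `ℚ`-group and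
every map from `X` to a `ℚ`-group extends uniquely to a homomorphism. -/
structure IsFreeQGroup {X F : Type u} [Group F] (ι : X → F) : Prop where
  isQGroup : IsQGroup F
  lift : ∀ (H : Type u) [Group H], IsQGroup H → ∀ f : X → H,
    ∃! φ : F →* H, ∀ x, φ (ι x) = f x

/-! ### `Λ`-trees -/

section Tree

variable {Λ : Type v} [AddCommGroup Λ] [LinearOrder Λ] [IsOrderedAddMonoid Λ] {T : Type w}

/-- `S` is a segment with endpoints `x` and `y`: the image of an isometric embedding `γ` of a
closed interval `[a, b]` of `Λ` with `γ a = x` and `γ b = y`. -/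
def IsSegment (d : T → T → Λ) (S : Set T) (x y : T) : Prop :=
  ∃ (a b : Λ) (γ : Λ → T), a ≤ b ∧
    (∀ s ∈ Set.Icc a b, ∀ t ∈ Set.Icc a b, d (γ s) (γ t) = |s - t|) ∧
    γ a = x ∧ γ b = y ∧ S = γ '' Set.Icc a b

/-- `(T, d)` is a `Λ`-tree: a nonempty `Λ`-metric space such that any two points are joined by a
segment, the intersection of two segments with a common endpoint is a segment, and the union of
two segments which meet only in a common endpoint is a segment. -/
structure IsLambdaTree (d : T → T → Λ) : Prop where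
  nonempty : Nonempty T
  dist_eq_zero : ∀ x y, d x y = 0 ↔ x = y
  dist_comm : ∀ x y, d x y = d y x
  dist_triangle : ∀ x y z, d x z ≤ d x y + d y z
  exists_segment : ∀ x y, ∃ S, IsSegment d S x y
  inter : ∀ (S S' : Set T) (x y z : T), IsSegment d S x y → IsSegment d S' x z →
    ∃ u v, IsSegment d (S ∩ S') u v
  union : ∀ (S S' : Set T) (x y z : T), IsSegment d S x y → IsSegment d S' x z →
    S ∩ S' = {x} → ∃ u v, IsSegment d (S ∪ S') u v

/-- A free action: the group acts by isometries and every nontrivial element fixes no point and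
inverts no segment (exchanges no two distinct points). -/
structure ActsFreely (G : Type u) [Group G] [MulAction G T] (d : T → T → Λ) : Prop where
  isometry : ∀ (g : G) (x y : T), d (g • x) (g • y) = d x y
  no_fixed_point : ∀ g : G, g ≠ 1 → ∀ x : T, g • x ≠ x
  no_inversion : ∀ g : G, g ≠ 1 → ∀ x y : T, x ≠ y → ¬ (g • x = y ∧ g • y = x)

/-! ### From the axioms to the four point condition -/

/-- The consequences of the axioms which are used below. -/
structure TreeLike (d : T → T → Λ) : Prop where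
  self : ∀ x, d x x = 0
  eq_of : ∀ x y, d x y ≤ 0 → x = y
  comm : ∀ x y, d x y = d y x
  four : ∀ x y z w, d x y + d z w ≤ d x z + d y w ∨ d x y + d z w ≤ d x w + d y z
  pt : ∀ x y (l : Λ), 0 ≤ l → l ≤ d x y → ∃ m, d x m = l ∧ d m y = d x y - l
  half : ∀ x y z, ∃ c, d x y + d x z - d y z = c + c

variable {d : T → T → Λ}

lemma isLambdaTree_nonneg (h : IsLambdaTree d) (x y : T) : 0 ≤ d x y := by
  have h1 := h.dist_triangle x y x
  have h2 := (h.dist_eq_zero x x).2 rfl
  have h3 := h.dist_comm x y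
  grind

/-- A segment in terms of distances to one of its endpoints. -/
lemma IsSegment.param {S : Set T} {x y : T} (hS : IsSegment d S x y) :
    (∀ p ∈ S, d x p + d p y = d x y) ∧ (∀ p ∈ S, ∀ q ∈ S, d x p = d x q → p = q) ∧
    (∀ l, 0 ≤ l → l ≤ d x y → ∃ p ∈ S, d x p = l) ∧
    (∀ p ∈ S, ∀ q ∈ S, d p q = |d x p - d x q|) ∧ x ∈ S ∧ y ∈ S := by
  obtain ⟨a, b, γ, hab, hγ, hx, hy, rfl⟩ := hS
  have ha : a ∈ Set.Icc a b := ⟨le_rfl, hab⟩
  have hb : b ∈ Set.Icc a b := ⟨hab, le_rfl⟩
  have hxs : ∀ s ∈ Set.Icc a b, d x (γ s) = s - a := by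
    intro s hs
    rw [← hx, hγ a ha s hs, abs_sub_comm, abs_of_nonneg (sub_nonneg.2 hs.1)]
  have hsy : ∀ s ∈ Set.Icc a b, d (γ s) y = b - s := by
    intro s hs
    rw [← hy, hγ s hs b hb, abs_sub_comm, abs_of_nonneg (sub_nonneg.2 hs.2)]
  have hxy : d x y = b - a := by rw [← hy, hxs b hb]
  refine ⟨?_, ?_, ?_, ?_, ?_, ?_⟩
  · rintro _ ⟨s, hs, rfl⟩
    rw [hxs s hs, hsy s hs, hxy]; abel
  · rintro _ ⟨s, hs, rfl⟩ _ ⟨t, ht, rfl⟩ hst
    rw [hxs s hs, hxs t ht] at hst
    have : s = t := by grind
    rw [this]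
  · intro l hl0 hl
    rw [hxy] at hl
    refine ⟨γ (a + l), ⟨a + l, ⟨by grind, by grind⟩, rfl⟩, ?_⟩
    rw [hxs _ ⟨by grind, by grind⟩]; abel
  · rintro _ ⟨s, hs, rfl⟩ _ ⟨t, ht, rfl⟩
    rw [hγ s hs t ht, hxs s hs, hxs t ht]
    congr 1; abel
  · exact ⟨a, ha, hx⟩
  · exact ⟨b, hb, hy⟩

/-- Sub-segments. -/
lemma IsSegment.sub {S : Set T} {x y : T} (hS : IsSegment d S x y)
    {m : T} (hm : m ∈ S) : IsSegment d {p ∈ S | d x m ≤ d x p} m y := by
  obtain ⟨a, b, γ, hab, hγ, hx, hy, rfl⟩ := hS
  have ha : a ∈ Set.Icc a b := ⟨le_rfl, hab⟩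
  have hxs : ∀ s ∈ Set.Icc a b, d x (γ s) = s - a := by
    intro s hs
    rw [← hx, hγ a ha s hs, abs_sub_comm, abs_of_nonneg (sub_nonneg.2 hs.1)]
  obtain ⟨t, ht, rfl⟩ := hm
  refine ⟨t, b, γ, ht.2, ?_, rfl, hy, ?_⟩
  · intro s hs s' hs'
    exact hγ s ⟨ht.1.trans hs.1, hs.2⟩ s' ⟨ht.1.trans hs'.1, hs'.2⟩
  · ext p
    constructor
    · rintro ⟨⟨s, hs, rfl⟩, hle⟩
      rw [hxs t ht, hxs s hs] at hle
      exact ⟨s, ⟨by grind, hs.2⟩, rfl⟩
    · rintro ⟨s, hs, rfl⟩
      have hs' : s ∈ Set.Icc a b := ⟨ht.1.trans hs.1, hs.2⟩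
      refine ⟨⟨s, hs', rfl⟩, ?_⟩
      rw [hxs t ht, hxs s hs']
      have := hs.1
      grind

/-- The intersection of two segments issuing from `x` is an initial segment of both. -/
lemma inter_param (h : IsLambdaTree d) {S S' : Set T} {x y z : T} (hS : IsSegment d S x y)
    (hS' : IsSegment d S' x z) : ∃ m, m ∈ S ∧ m ∈ S' ∧
      (∀ p ∈ S, d x p ≤ d x m → p ∈ S') ∧ (∀ p ∈ S', d x p ≤ d x m → p ∈ S) ∧
      (∀ p, p ∈ S → p ∈ S' → d x p ≤ d x m) := by
  obtain ⟨s1, s2, s3, s4, s5, s6⟩ := hS.param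
  obtain ⟨t1, t2, t3, t4, t5, t6⟩ := hS'.param
  -- a version of the conclusion for a segment starting at `x`
  have key : ∀ m, IsSegment d (S ∩ S') x m → ∃ m, m ∈ S ∧ m ∈ S' ∧
      (∀ p ∈ S, d x p ≤ d x m → p ∈ S') ∧ (∀ p ∈ S', d x p ≤ d x m → p ∈ S) ∧
      (∀ p, p ∈ S → p ∈ S' → d x p ≤ d x m) := by
    intro m hm
    obtain ⟨k1, k2, k3, k4, k5, k6⟩ := hm.param
    refine ⟨m, k6.1, k6.2, ?_, ?_, ?_⟩
    · intro p hp hle
      obtain ⟨p', hp', he⟩ := k3 (d x p) (isLambdaTree_nonneg h _ _) hle
      have : p' = p := s2 p' hp'.1 p hp he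
      rw [← this]; exact hp'.2
    · intro p hp hle
      obtain ⟨p', hp', he⟩ := k3 (d x p) (isLambdaTree_nonneg h _ _) hle
      have : p' = p := t2 p' hp'.2 p hp he
      rw [← this]; exact hp'.1
    · intro p hp hp'
      have h1 := k1 p ⟨hp, hp'⟩
      have h2 := isLambdaTree_nonneg h p m
      grind
  obtain ⟨u, v, huv⟩ := h.inter S S' x y z hS hS'
  obtain ⟨k1, k2, k3, k4, k5, k6⟩ := huv.param
  have hx : x ∈ S ∩ S' := ⟨s5, t5⟩
  have e1 := k1 x hx
  have e2 := s4 u k5.1 v k6.1
  have e3 := h.dist_comm u x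
  have hu := isLambdaTree_nonneg h x u
  have hv := isLambdaTree_nonneg h x v
  rcases le_total (d x u) (d x v) with hle | hle
  · have h0 : d x u = 0 := by
      rw [abs_sub_comm, abs_of_nonneg (sub_nonneg.2 hle)] at e2
      grind
    have hxu := (h.dist_eq_zero x u).1 h0
    rw [← hxu] at huv
    exact key v huv
  · have h0 : d x v = 0 := by
      rw [abs_of_nonneg (sub_nonneg.2 hle)] at e2
      grind
    have hxv := (h.dist_eq_zero x v).1 h0
    rw [← hxv] at huv
    -- reverse the segment
    refine key u ?_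
    obtain ⟨a, b, γ, hab, hγ, ha, hb, hK⟩ := huv
    refine ⟨-b, -a, fun t => γ (-t), by grind, ?_, by simpa using hb, by simpa using ha, ?_⟩
    · intro s hs t ht
      rw [hγ (-s) ⟨by have := hs.2; grind, by have := hs.1; grind⟩ (-t)
        ⟨by have := ht.2; grind, by have := ht.1; grind⟩]
      rw [show -s - -t = -(s - t) by abel, abs_neg]
    · rw [hK]
      ext p
      constructor
      · rintro ⟨s, hs, rfl⟩
        refine ⟨-s, ⟨by have := hs.2; grind, by have := hs.1; grind⟩, by simp⟩
      · rintro ⟨s, hs, rfl⟩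
        exact ⟨-s, ⟨by have := hs.2; grind, by have := hs.1; grind⟩, rfl⟩

/-- Two segments with a single common point, a common endpoint: distances add. -/
lemma dist_add_of_inter (h : IsLambdaTree d) {S S' : Set T} {m y z : T} (hS : IsSegment d S m y)
    (hS' : IsSegment d S' m z) (hI : S ∩ S' = {m}) : d y z = d y m + d m z := by
  obtain ⟨s1, s2, s3, s4, s5, s6⟩ := hS.param
  obtain ⟨t1, t2, t3, t4, t5, t6⟩ := hS'.param
  obtain ⟨u, v, huv⟩ := h.union S S' m y z hS hS' hI
  obtain ⟨k1, k2, k3, k4, k5, k6⟩ := huv.param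
  have hmy := k4 m (Or.inl s5) y (Or.inl s6)
  have hmz := k4 m (Or.inl s5) z (Or.inr t6)
  have hyz := k4 y (Or.inl s6) z (Or.inr t6)
  have hym := h.dist_comm y m
  have n1 := isLambdaTree_nonneg h m y
  have n2 := isLambdaTree_nonneg h m z
  have ay : y ∈ S' → y = m := fun hy => by
    have : y ∈ S ∩ S' := ⟨s6, hy⟩
    rw [hI] at this; exact this
  have az : z ∈ S → z = m := fun hz => by
    have : z ∈ S ∩ S' := ⟨hz, t6⟩
    rw [hI] at this; exact this
  -- if y and z are on the same side of m, one of them equals m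
  have by_len : d m y ≤ d m z → (0 < d u y - d u m ∧ 0 < d u z - d u m ∨
      d u y - d u m < 0 ∧ d u z - d u m < 0) → y = m := by
    intro hle hs
    obtain ⟨p, hp, hpe⟩ := t3 (d m y) n1 hle
    apply ay
    have h1 := t1 p hp
    have h2 := k4 m (Or.inl s5) p (Or.inr hp)
    have h3 := k4 p (Or.inr hp) z (Or.inr t6)
    have h4 := k4 p (Or.inr hp) y (Or.inl s6)
    have : d p y = 0 := by
      rcases hs with hs | hs <;>
      · rcases abs_cases (d u m - d u p) with h5 | h5 <;>
        rcases abs_cases (d u m - d u y) with h6 | h6 <;>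
        rcases abs_cases (d u m - d u z) with h7 | h7 <;>
        rcases abs_cases (d u p - d u z) with h8 | h8 <;>
        rcases abs_cases (d u p - d u y) with h9 | h9 <;>
        grind
    have := (h.dist_eq_zero p y).1 this
    rw [← this]; exact hp
  have bz_len : d m z ≤ d m y → (0 < d u y - d u m ∧ 0 < d u z - d u m ∨
      d u y - d u m < 0 ∧ d u z - d u m < 0) → z = m := by
    intro hle hs
    obtain ⟨p, hp, hpe⟩ := s3 (d m z) n2 hle
    apply az
    have h1 := s1 p hp
    have h2 := k4 m (Or.inl s5) p (Or.inl hp)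
    have h3 := k4 p (Or.inl hp) y (Or.inl s6)
    have h4 := k4 p (Or.inl hp) z (Or.inr t6)
    have : d p z = 0 := by
      rcases hs with hs | hs <;>
      · rcases abs_cases (d u m - d u p) with h5 | h5 <;>
        rcases abs_cases (d u m - d u y) with h6 | h6 <;>
        rcases abs_cases (d u m - d u z) with h7 | h7 <;>
        rcases abs_cases (d u p - d u z) with h8 | h8 <;>
        rcases abs_cases (d u p - d u y) with h9 | h9 <;>
        grind
    have := (h.dist_eq_zero p z).1 this
    rw [← this]; exact hp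
  by_cases hs : (0 < d u y - d u m ∧ 0 < d u z - d u m ∨
      d u y - d u m < 0 ∧ d u z - d u m < 0)
  · exfalso
    rcases le_total (d m y) (d m z) with hle | hle
    · have := by_len hle hs
      rw [this] at hs
      simp at hs
    · have := bz_len hle hs
      rw [this] at hs
      simp at hs
  · rw [hyz, hym, hmy, hmz]
    rcases abs_cases (d u m - d u y) with h6 | h6 <;>
    rcases abs_cases (d u m - d u z) with h7 | h7 <;>
    rcases abs_cases (d u y - d u z) with h8 | h8 <;>
    grind

/-- Medians. -/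
lemma median (h : IsLambdaTree d) {S S' : Set T} {x y z : T} (hS : IsSegment d S x y)
    (hS' : IsSegment d S' x z) : ∃ m, m ∈ S ∧ m ∈ S' ∧
      (∀ p ∈ S, d x p ≤ d x m → p ∈ S') ∧ (∀ p ∈ S', d x p ≤ d x m → p ∈ S) ∧
      (∀ p, p ∈ S → p ∈ S' → d x p ≤ d x m) ∧ d x y + d x z - d y z = d x m + d x m := by
  obtain ⟨m, h1, h2, h3, h4, h5⟩ := inter_param h hS hS'
  refine ⟨m, h1, h2, h3, h4, h5, ?_⟩
  obtain ⟨s1, s2, s3, s4, s5, s6⟩ := hS.param
  obtain ⟨t1, t2, t3, t4, t5, t6⟩ := hS'.param
  have e := dist_add_of_inter h (hS.sub h1) (hS'.sub h2) (by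
    ext p
    constructor
    · rintro ⟨⟨hp, hle⟩, hp', _⟩
      exact s2 p hp m h1 (le_antisymm (h5 p hp hp') hle)
    · intro hp
      have hp : p = m := hp
      rw [hp]
      exact ⟨⟨h1, le_rfl⟩, h2, le_rfl⟩)
  have e1 := s1 m h1
  have e2 := t1 m h2
  have e3 := h.dist_comm y m
  grind

lemma IsLambdaTree.treeLike (h : IsLambdaTree d) : TreeLike d where
  self x := (h.dist_eq_zero x x).2 rfl
  eq_of x y hxy := (h.dist_eq_zero x y).1 (le_antisymm hxy (isLambdaTree_nonneg h x y))
  comm := h.dist_comm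
  four x y z w := by
    obtain ⟨Sx, hSx⟩ := h.exists_segment w x
    obtain ⟨Sy, hSy⟩ := h.exists_segment w y
    obtain ⟨Sz, hSz⟩ := h.exists_segment w z
    obtain ⟨m1, a1, a2, a3, a4, a5, a6⟩ := median h hSx hSz
    obtain ⟨m2, b1, b2, b3, b4, b5, b6⟩ := median h hSy hSz
    obtain ⟨m3, c1, c2, c3, c4, c5, c6⟩ := median h hSx hSy
    have e1 := h.dist_comm w x
    have e2 := h.dist_comm w y
    have e3 := h.dist_comm w z
    rcases le_total (d w m1) (d w m2) with hle | hle
    · left
      have := c5 m1 a1 (b4 m1 a2 hle)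
      grind
    · right
      have := c5 m2 (a4 m2 b2 hle) b1
      grind
  pt x y l h0 hl := by
    obtain ⟨S, hS⟩ := h.exists_segment x y
    obtain ⟨s1, s2, s3, s4, s5, s6⟩ := hS.param
    obtain ⟨p, hp, he⟩ := s3 l h0 hl
    refine ⟨p, he, ?_⟩
    have := s1 p hp
    grind
  half x y z := by
    obtain ⟨S, hS⟩ := h.exists_segment x y
    obtain ⟨S', hS'⟩ := h.exists_segment x z
    obtain ⟨m, _, _, _, _, _, hm⟩ := median h hS hS'
    exact ⟨_, hm⟩

/-! ### Free actions -/

namespace TreeLike

omit [IsOrderedAddMonoid Λ] in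
lemma tri (h : TreeLike d) (x y z : T) : d x z ≤ d x y + d y z := by
  have h1 := h.four x z y y
  have h2 := h.self y
  have h3 := h.comm z y
  grind

lemma nonneg (h : TreeLike d) (x y : T) : 0 ≤ d x y := by
  have h1 := h.tri x y x
  have h2 := h.self x
  have h3 := h.comm x y
  grind

/-- Points at the same distance on two segments from `w` which fellow travel are equal. -/
lemma uniq (h : TreeLike d) {w u v a b : T} {l : Λ} (ha : d w a = l) (ha' : d a u = d w u - l)
    (hb : d w b = l) (hb' : d b v = d w v - l) (hl : l + l ≤ d w u + d w v - d u v) : a = b := by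
  apply h.eq_of
  have h1 := h.four a v w u
  have h2 := h.comm a w
  have h3 := h.comm v u
  have h4 := h.comm v w
  have h5 := h.four a b w v
  have h6 := h.comm b w
  grind

/-- Concatenation of geodesics. -/
lemma cat (h : TreeLike d) {a b c e : T} (h1 : d a c = d a b + d b c)
    (h2 : d b e = d b c + d c e) (h3 : 0 < d b c) : d a e = d a c + d c e := by
  have h4 := h.four a c b e
  have h5 := h.tri a c e
  have h6 := h.comm c b
  grind

end TreeLike

variable {G : Type u} [Group G] [MulAction G T]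

/-- Every nontrivial element of a freely acting group is hyperbolic. -/
lemma hyperbolic (h : TreeLike d) (hf : ActsFreely G d) {g : G} (hg : g ≠ 1) (r : T) :
    d r (g • r) < d r (g • g • r) := by
  by_contra hcon
  rw [not_lt] at hcon
  obtain ⟨c, hc⟩ := h.half (g • r) r (g • g • r)
  have i1 : d (g • r) (g • g • r) = d r (g • r) := hf.isometry g r (g • r)
  have i2 := h.comm (g • r) r
  have n1 := h.nonneg r (g • r)
  have n2 := h.nonneg r (g • g • r)
  obtain ⟨r1, h1, h1'⟩ := h.pt r (g • r) (d r (g • r) - c) (by grind) (by grind)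
  obtain ⟨r2, h2, h2'⟩ := h.pt r (g • r) c (by grind) (by grind)
  have j1 : d (g • r) (g • r1) = d r r1 := hf.isometry g r r1
  have j2 : d (g • r1) (g • g • r) = d r1 (g • r) := hf.isometry g r1 (g • r)
  have j3 : d (g • r) (g • r2) = d r r2 := hf.isometry g r r2
  have j4 : d (g • r2) (g • g • r) = d r2 (g • r) := hf.isometry g r2 (g • r)
  have c1 := h.comm (g • r) r1
  have c2 := h.comm (g • r) r2
  have c3 := h.comm r1 r
  have c4 := h.comm r2 r
  have e1 : r2 = g • r1 :=
    h.uniq (w := g • r) (u := r) (v := g • g • r) (l := d r (g • r) - c)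
      (by grind) (by grind) (by grind) (by grind) (by grind)
  have e2 : r1 = g • r2 :=
    h.uniq (w := g • r) (u := r) (v := g • g • r) (l := c)
      (by grind) (by grind) (by grind) (by grind) (by grind)
  by_cases hr : r1 = r2
  · exact hf.no_fixed_point g hg r1 (by rw [← e1, hr])
  · exact hf.no_inversion g hg r1 r2 hr ⟨e1.symm, e2.symm⟩

/-- The point `p` lies on the axis of `g`, of translation length `l`. -/
def Ax (d : T → T → Λ) (g : G) (l : Λ) (p : T) : Prop :=
  d p (g • p) = l ∧ d p (g • g • p) = l + l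

lemma Ax.pos (h : TreeLike d) (hf : ActsFreely G d) {g : G} (hg : g ≠ 1) {l : Λ} {p : T}
    (hp : Ax d g l p) : 0 < l := by
  have := hyperbolic h hf hg p
  have h1 := hp.1
  have h2 := hp.2
  grind

/-- Projection to the axis. -/
lemma projection (h : TreeLike d) (hf : ActsFreely G d) {g : G} (hg : g ≠ 1) (r : T) :
    ∃ (l c : Λ) (p : T), 0 ≤ c ∧ d r (g • r) = l + (c + c) ∧ d r (g • g • r) = l + l + (c + c) ∧
      d r p = c ∧ Ax d g l p ∧ d r (g • p) = l + c ∧ d r (g⁻¹ • p) = l + c := by
  have hyp := hyperbolic h hf hg r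
  obtain ⟨c, hc⟩ := h.half (g • r) r (g • g • r)
  have i1 : d (g • r) (g • g • r) = d r (g • r) := hf.isometry g r (g • r)
  have i2 := h.comm (g • r) r
  have n1 := h.nonneg r (g • r)
  have n2 := h.nonneg r (g • g • r)
  have t1 := h.tri r (g • r) (g • g • r)
  obtain ⟨p, hp, hp'⟩ := h.pt r (g • r) c (by grind) (by grind)
  have j1 : d (g • r) (g • p) = d r p := hf.isometry g r p
  have j2 : d (g • p) (g • g • r) = d p (g • r) := hf.isometry g p (g • r)
  have j3 : d (g • g • p) (g • g • r) = d p r := by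
    rw [hf.isometry g (g • p) (g • r), hf.isometry g p r]
  have j4 : d r (g⁻¹ • p) = d (g • r) p := by
    rw [← hf.isometry g r (g⁻¹ • p), smul_inv_smul]
  have f1 := h.four r (g • p) (g • r) (g • g • r)
  have t2 := h.tri r (g • p) (g • r)
  have t3 := h.tri r p (g • p)
  have t4 := h.tri r (g • p) (g • r)
  have f2 := h.four p (g • p) r (g • r)
  have c1 := h.comm (g • p) (g • r)
  have c2 := h.comm p r
  have c3 := h.comm (g • p) r
  have c4 := h.comm (g • r) p
  have t5 := h.tri r p (g • g • r)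
  have t6 := h.tri p (g • g • p) (g • g • r)
  have j5 : d (g • p) (g • g • p) = d p (g • p) := hf.isometry g p (g • p)
  have t7 := h.tri p (g • p) (g • g • p)
  have t8 := h.tri r (g • r) (g • p)
  refine ⟨d r (g • g • r) - d r (g • r), c, p, by grind, by grind, by grind, hp, ⟨by grind, ?_⟩,
    by grind, by grind⟩
  have e1 : d p (g • p) = d r (g • g • r) - d r (g • r) := by grind
  grind

/-- The translation length does not depend on the point. -/
lemma Ax.unique (h : TreeLike d) (hf : ActsFreely G d) {g : G} {l l' : Λ} {p p' : T}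
    (hp : Ax d g l p) (hp' : Ax d g l' p') : l = l' := by
  have key : ∀ {l l' : Λ} {p p' : T}, Ax d g l p → Ax d g l' p' → l' ≤ l := by
    intro l l' p p' hp hp'
    have a1 := hp.1
    have b1 := hp'.1
    have b2 := hp'.2
    have j1 : d (g⁻¹ • p') (g • p') = d p' (g • g • p') := by
      rw [← hf.isometry g (g⁻¹ • p') (g • p'), smul_inv_smul]
    have j2 : d (g⁻¹ • p') p' = d p' (g • p') := by
      rw [← hf.isometry g (g⁻¹ • p') p', smul_inv_smul]
    have j3 : d (g⁻¹ • p') p = d p' (g • p) := by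
      rw [← hf.isometry g (g⁻¹ • p') p, smul_inv_smul]
    have j4 : d (g • p) (g • p') = d p p' := hf.isometry g p p'
    have f1 := h.four (g⁻¹ • p') (g • p') p' p
    have t1 := h.tri p (g • p) (g • p')
    have t2 := h.tri (g • p) p p'
    have c1 := h.comm p' p
    have c2 := h.comm (g • p') p
    have c3 := h.comm p' (g • p)
    have c4 := h.comm (g • p) p
    have c5 := h.comm (g • p') p'
    grind
  exact le_antisymm (key hp' hp) (key hp hp')

/-- Distances from an arbitrary point in terms of the translation length. -/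
lemma Ax.dist (h : TreeLike d) (hf : ActsFreely G d) {g : G} (hg : g ≠ 1) {l : Λ} {p : T}
    (hp : Ax d g l p) (r : T) :
    ∃ c, 0 ≤ c ∧ d r (g • r) = l + (c + c) ∧ d r (g • g • r) = l + l + (c + c) := by
  obtain ⟨l', c, p', h1, h2, h3, _, h5, _, _⟩ := projection h hf hg r
  have := hp.unique h hf h5
  subst this
  exact ⟨c, h1, h2, h3⟩

/-- A point is on the axis as soon as its displacement is at most the translation length. -/
lemma Ax.of_le (h : TreeLike d) (hf : ActsFreely G d) {g : G} (hg : g ≠ 1) {l : Λ} {p : T}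
    (hp : Ax d g l p) {r : T} (hr : d r (g • r) ≤ l) : Ax d g l r := by
  obtain ⟨c, h1, h2, h3⟩ := hp.dist h hf hg r
  have : c = 0 := by grind
  subst this
  exact ⟨by grind, by grind⟩

/-- Axes are convex. -/
lemma Ax.convex (h : TreeLike d) (hf : ActsFreely G d) {g : G} (hg : g ≠ 1) {l : Λ} {p q m : T}
    (hp : Ax d g l p) (hq : Ax d g l q) (hm : d q m + d m p = d q p) : Ax d g l m := by
  refine hp.of_le h hf hg ?_
  have a1 := hp.1
  have b1 := hq.1
  have j1 : d (g • q) (g • p) = d q p := hf.isometry g q p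
  have j2 : d (g • q) (g • m) = d q m := hf.isometry g q m
  have j3 : d (g • m) (g • p) = d m p := hf.isometry g m p
  have f1 := h.four m (g • m) q p
  have f2 := h.four (g • m) p (g • q) (g • p)
  have f3 := h.four (g • m) q (g • q) (g • p)
  have t1 := h.tri p q (g • q)
  have t2 := h.tri q p (g • p)
  have c1 := h.comm m q
  have c2 := h.comm (g • m) q
  have c3 := h.comm (g • m) p
  have c4 := h.comm (g • m) (g • q)
  have c5 := h.comm p q
  have n1 := h.nonneg q m
  have n2 := h.nonneg m p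
  grind

/-- The fundamental step: if `x` and `y` have the same translation length and the axis of `y`
meets its translate by `x`, then `x = y` or `x = y⁻¹`. -/
lemma step_one (h : TreeLike d) (hf : ActsFreely G d) {x y : G} (hx : x ≠ 1)
    {l : Λ} {px q : T} (hpx : Ax d x l px) (hq : Ax d y l q) (hxq : Ax d y l (x • q)) :
    x = y ∨ x = y⁻¹ := by
  obtain ⟨c, hc0, hc1, hc2⟩ := hpx.dist h hf hx q
  -- the essential computation
  have key : ∀ y' : G, d q (y' • q) = l → d (x • q) (y' • x • q) = l →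
      d (y' • q) (x • q) ≤ c + c → x = y' := by
    intro y' h1 h2 h3
    by_contra hne
    have hg : y'⁻¹ * x ≠ 1 := by
      intro h1
      exact hne (inv_mul_eq_one.1 h1).symm
    have hyp := hyperbolic h hf hg q
    simp only [mul_smul] at hyp
    have j1 : d q (y'⁻¹ • x • q) = d (y' • q) (x • q) := by
      rw [← hf.isometry y' q (y'⁻¹ • x • q), smul_inv_smul]
    have j2 : d q (y'⁻¹ • x • y'⁻¹ • x • q) = d (y' • q) (x • y'⁻¹ • x • q) := by
      rw [← hf.isometry y' q (y'⁻¹ • x • y'⁻¹ • x • q), smul_inv_smul]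
    have j3 : d (y'⁻¹ • x • q) (x • q) = d (x • q) (y' • x • q) := by
      rw [← hf.isometry y' (y'⁻¹ • x • q) (x • q), smul_inv_smul]
    have j4 : d (x • q) (x • y'⁻¹ • x • q) = d q (y'⁻¹ • x • q) := hf.isometry x _ _
    have j5 : d (x • y'⁻¹ • x • q) (x • x • q) = d (y'⁻¹ • x • q) (x • q) := hf.isometry x _ _
    have j6 : d (x • q) (x • x • q) = d q (x • q) := hf.isometry x _ _
    have f1 := h.four q (x • y'⁻¹ • x • q) (x • q) (x • x • q)
    have f2 := h.four (y' • q) (x • y'⁻¹ • x • q) q (x • q)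
    have c1 := h.comm (x • y'⁻¹ • x • q) (x • q)
    have c2 := h.comm (y' • q) q
    have c3 := h.comm (x • y'⁻¹ • x • q) q
    have n0 := h.nonneg (y' • q) (x • q)
    grind
  have a1 := hq.1
  have a2 := hq.2
  have b1 := hxq.1
  have b2 := hxq.2
  have j1 : d (y⁻¹ • q) (y • q) = d q (y • y • q) := by
    rw [← hf.isometry y (y⁻¹ • q) (y • q), smul_inv_smul]
  have j2 : d (y⁻¹ • q) q = d q (y • q) := by
    rw [← hf.isometry y (y⁻¹ • q) q, smul_inv_smul]
  have j3 : d (y⁻¹ • q) (x • q) = d q (y • x • q) := by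
    rw [← hf.isometry y (y⁻¹ • q) (x • q), smul_inv_smul]
  have j4 : d (y • q) (x • q) = d q (y⁻¹ • x • q) := by
    rw [← hf.isometry y q (y⁻¹ • x • q), smul_inv_smul]
  have j5 : d (x • q) (y⁻¹ • x • q) = d (y • x • q) (x • q) := by
    rw [← hf.isometry y (x • q) (y⁻¹ • x • q), smul_inv_smul]
  have j6 : d q (y⁻¹ • q) = d (y • q) q := by
    rw [← hf.isometry y q (y⁻¹ • q), smul_inv_smul]
  have j7 : d (y • q) (y • x • q) = d q (x • q) := hf.isometry y _ _
  have j8 : d (y⁻¹ • q) (y⁻¹ • x • q) = d q (x • q) := hf.isometry y⁻¹ _ _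
  have f1 := h.four (y⁻¹ • q) (y • q) q (x • q)
  have c1 := h.comm (y • q) q
  have c2 := h.comm (y • x • q) (x • q)
  have n0 := h.nonneg q (x • q)
  by_cases hA : d q (x • q) + l ≤ d (y⁻¹ • q) (x • q)
  · left
    refine key y a1 b1 ?_
    have f2 := h.four q (y • x • q) (y • q) (x • q)
    have c3 := h.comm (y • x • q) (y • q)
    have f3 := h.four q (y • x • q) (y • q) (x • q)
    grind
  · right
    have hB : d q (x • q) + l ≤ d (y • q) (x • q) := by
      have c4 := h.comm (y⁻¹ • q) (x • q)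
      have c5 := h.comm (y • q) (x • q)
      grind
    refine key y⁻¹ (by grind) (by grind) ?_
    have f2 := h.four q (y⁻¹ • x • q) (y⁻¹ • q) (x • q)
    have c3 := h.comm (y⁻¹ • x • q) (y⁻¹ • q)
    have c4 := h.comm (y⁻¹ • x • q) (x • q)
    grind

/-- If `z` maps the first corner of a geodesic `R0, ..., R8` with `R4 = z² R0`, `R8 = z⁴ R0` of
total length `4 L`, then `z R0` is the midpoint of `R0` and `R4`. -/
lemma half_shift (h : TreeLike d) (hf : ActsFreely G d) {z : G} (hz : z ≠ 1) {r m : T} {L : Λ}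
    (h1 : d r (z • z • r) = L + L) (h2 : d r (z • z • z • z • r) = L + L + (L + L))
    (hm : d r m = L) (hm' : d m (z • z • r) = L) : z • r = m := by
  obtain ⟨l, c, p, h3, h4, h5, h6, h7, h8, h9⟩ := projection h hf hz r
  have a1 := h7.1
  have a2 := h7.2
  have t1 := h.tri r p (z • z • z • z • r)
  have t2 := h.tri p (z • z • z • z • p) (z • z • z • z • r)
  have t3 := h.tri p (z • z • p) (z • z • z • z • p)
  have j1 : d (z • z • p) (z • z • z • z • p) = d p (z • z • p) := by
    rw [hf.isometry, hf.isometry]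
  have j2 : d (z • z • z • z • p) (z • z • z • z • r) = d p r := by
    rw [hf.isometry, hf.isometry, hf.isometry, hf.isometry]
  have j3 : d (z • r) (z • z • r) = d r (z • r) := hf.isometry _ _ _
  have c1 := h.comm p r
  have hc : c = 0 := by grind
  have nL := h.nonneg r m
  exact h.uniq (w := r) (u := z • z • r) (v := z • z • r) (l := L) (by grind) (by grind)
    (by grind) (by grind) (by have := h.self (z • z • r); grind)

/-- The key proposition: in a group acting freely on a `Λ`-tree, if `x`, `y` are nontrivial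
elements of the same translation length and `z² = (x y x⁻¹) y`, then `x = y` or `x = y⁻¹`. -/
lemma key_prop (h : TreeLike d) [Nonempty T] (hf : ActsFreely G d) {x y z b : G} (hx : x ≠ 1)
    (hy : y = b * x * b⁻¹) (hz : z * z = x * y * x⁻¹ * y) : x = y ∨ x = y⁻¹ := by
  by_contra hcon
  -- translation lengths
  obtain ⟨r0⟩ := ‹Nonempty T›
  obtain ⟨l, c0, px, -, -, -, -, hpx, -, -⟩ := projection h hf hx r0
  have hyne : y ≠ 1 := by
    intro h1
    rw [h1] at hy
    apply hx
    have : b⁻¹ * 1 * b = b⁻¹ * (b * x * b⁻¹) * b := by rw [← hy]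
    simpa [mul_assoc] using this.symm
  have conj : ∀ (a g : G) (p : T), Ax d g l p → Ax d (a * g * a⁻¹) l (a • p) := by
    intro a g p hp
    refine ⟨?_, ?_⟩
    · rw [← hp.1, ← hf.isometry a p (g • p)]
      simp [mul_smul]
    · rw [← hp.2, ← hf.isometry a p (g • g • p)]
      simp [mul_smul]
  have hpy : Ax d y l (b • px) := by rw [hy]; exact conj b x px hpx
  set y' := x * y * x⁻¹ with hy'
  have hy'ne : y' ≠ 1 := by
    intro h1
    apply hyne
    have : x⁻¹ * (x * y * x⁻¹) * x = x⁻¹ * 1 * x := by rw [← hy', h1]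
    simpa [mul_assoc] using this
  -- the two axes are disjoint
  have hdisj : ∀ p, Ax d y l p → Ax d y' l p → False := by
    intro p h1 h2
    have h3 : Ax d y l (x⁻¹ • p) := by
      have := conj x⁻¹ y' p h2
      rw [hy'] at this
      simpa [mul_assoc] using this
    exact hcon (step_one h hf hx hpx h3 (by rw [smul_inv_smul]; exact h1))
  have hr : Ax d y' l (x • b • px) := conj x y _ hpy
  set r := x • b • px with hrdef
  have hl : 0 < l := hpx.pos h hf hx
  -- the bridge
  obtain ⟨l1, c, p, hc0, -, -, hp1, hp2, hp3, hp4⟩ := projection h hf hyne r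
  have : l1 = l := hp2.unique h hf hpy
  subst this
  obtain ⟨l2, δ, p', hδ0, -, -, hq1, hq2, hq3, hq4⟩ := projection h hf hy'ne p
  have : l2 = l1 := hq2.unique h hf hr
  subst this
  have hδ : 0 < δ := by
    rcases lt_or_eq_of_le hδ0 with h1 | h1
    · exact h1
    · exfalso
      have : p = p' := h.eq_of p p' (by grind)
      rw [← this] at hq2
      exact hdisj p hp2 hq2
  have i1 : d (y • p) p = l2 := by rw [h.comm]; exact hp2.1
  have i2 : d (y⁻¹ • p) p = l2 := by
    rw [← hf.isometry y (y⁻¹ • p) p, smul_inv_smul]; exact hp2.1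
  have i3 : d p' (y' • p') = l2 := hq2.1
  have comm1 := h.comm (y • p) r
  have comm2 := h.comm (y⁻¹ • p) r
  have comm3 := h.comm p' r
  have comm4 := h.comm r p
  -- perpendicularity at p
  have hnot : ¬ (c + δ ≤ d r p') := by
    intro hle
    have t := h.tri r p p'
    refine hdisj p hp2 (Ax.convex h hf hy'ne (p := p') (q := r) hq2 hr ?_)
    grind
  have s1 : d (y • p) p' = l2 + δ := by
    have f := h.four (y • p) r p p'
    have t := h.tri (y • p) p p'
    have c5 := h.comm p r
    grind
  have s2 : d (y⁻¹ • p) p' = l2 + δ := by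
    have f := h.four (y⁻¹ • p) r p p'
    have t := h.tri (y⁻¹ • p) p p'
    have c5 := h.comm p r
    grind
  -- the geodesic: g = y' y
  have g1 : ∀ a : T, y' • y • a = z • z • a := by
    intro a
    rw [← mul_smul, ← mul_smul, hz]
  have e01 : d (y⁻¹ • p) p = l2 := i2
  have e12 : d p p' = δ := hq1
  have e23 : d p' (y' • p') = l2 := i3
  have e34 : d (y' • p') (y' • p) = δ := by rw [hf.isometry, h.comm]; exact hq1
  have e45 : d (y' • p) (y' • y • p) = l2 := by rw [hf.isometry]; exact hp2.1
  have e56 : d (y' • y • p) (y' • y • p') = δ := by rw [hf.isometry, hf.isometry]; exact hq1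
  have e67 : d (y' • y • p') (y' • y • y' • p') = l2 := by
    rw [hf.isometry, hf.isometry]; exact i3
  have e78 : d (y' • y • y' • p') (y' • y • y' • p) = δ := by
    rw [hf.isometry, hf.isometry]; exact e34
  have e89 : d (y' • y • y' • p) (y' • y • y' • y • p) = l2 := by
    rw [hf.isometry, hf.isometry]; exact e45
  have t02 : d (y⁻¹ • p) p' = l2 + δ := s2
  have t13 : d p (y' • p') = δ + l2 := by rw [hq3, add_comm]
  have t24 : d p' (y' • p) = l2 + δ := by
    have : d p' (y' • p) = d p (y'⁻¹ • p') := by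
      rw [← hf.isometry y' p (y'⁻¹ • p'), smul_inv_smul, h.comm]
    rw [this]; exact hq4
  have t35 : d (y' • p') (y' • y • p) = δ + l2 := by
    rw [hf.isometry, h.comm, s1, add_comm]
  have t46 : d (y' • p) (y' • y • p') = l2 + δ := by
    rw [hf.isometry]
    have : d p (y • p') = d (y⁻¹ • p) p' := by
      rw [← hf.isometry y (y⁻¹ • p) p', smul_inv_smul]
    rw [this]; exact s2
  have t57 : d (y' • y • p) (y' • y • y' • p') = δ + l2 := by
    rw [hf.isometry, hf.isometry]; exact t13
  have t68 : d (y' • y • p') (y' • y • y' • p) = l2 + δ := by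
    rw [hf.isometry, hf.isometry]; exact t24
  have t79 : d (y' • y • y' • p') (y' • y • y' • y • p) = δ + l2 := by
    rw [hf.isometry, hf.isometry]; exact t35
  -- from R0 = y⁻¹ p
  have u3 : d (y⁻¹ • p) (y' • p') = l2 + δ + l2 := by
    have := h.cat (a := y⁻¹ • p) (b := p) (c := p') (e := y' • p') (by grind) (by grind) (by grind)
    grind
  have u4 : d (y⁻¹ • p) (y' • p) = l2 + δ + (l2 + δ) := by
    have := h.cat (a := y⁻¹ • p) (b := p') (c := y' • p') (e := y' • p)
      (by grind) (by grind) (by grind)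
    grind
  have u5 : d (y⁻¹ • p) (y' • y • p) = l2 + δ + (l2 + δ) + l2 := by
    have := h.cat (a := y⁻¹ • p) (b := y' • p') (c := y' • p) (e := y' • y • p)
      (by grind) (by grind) (by grind)
    grind
  have u6 : d (y⁻¹ • p) (y' • y • p') = l2 + δ + (l2 + δ) + (l2 + δ) := by
    have := h.cat (a := y⁻¹ • p) (b := y' • p) (c := y' • y • p) (e := y' • y • p')
      (by grind) (by grind) (by grind)
    grind
  have u7 : d (y⁻¹ • p) (y' • y • y' • p') = l2 + δ + (l2 + δ) + (l2 + δ) + l2 := by
    have := h.cat (a := y⁻¹ • p) (b := y' • y • p) (c := y' • y • p') (e := y' • y • y' • p')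
      (by grind) (by grind) (by grind)
    grind
  have u8 : d (y⁻¹ • p) (y' • y • y' • p) = l2 + δ + (l2 + δ) + (l2 + δ + (l2 + δ)) := by
    have := h.cat (a := y⁻¹ • p) (b := y' • y • p') (c := y' • y • y' • p') (e := y' • y • y' • p)
      (by grind) (by grind) (by grind)
    grind
  -- from R1 = p
  have v4 : d p (y' • p) = δ + l2 + δ := by
    have := h.cat (a := p) (b := p') (c := y' • p') (e := y' • p)
      (by grind) (by grind) (by grind)
    grind
  have v5 : d p (y' • y • p) = l2 + δ + (l2 + δ) := by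
    have := h.cat (a := p) (b := y' • p') (c := y' • p) (e := y' • y • p)
      (by grind) (by grind) (by grind)
    grind
  have v6 : d p (y' • y • p') = l2 + δ + (l2 + δ) + δ := by
    have := h.cat (a := p) (b := y' • p) (c := y' • y • p) (e := y' • y • p')
      (by grind) (by grind) (by grind)
    grind
  have v7 : d p (y' • y • y' • p') = l2 + δ + (l2 + δ) + (l2 + δ) := by
    have := h.cat (a := p) (b := y' • y • p) (c := y' • y • p') (e := y' • y • y' • p')
      (by grind) (by grind) (by grind)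
    grind
  have v8 : d p (y' • y • y' • p) = l2 + δ + (l2 + δ) + (l2 + δ) + δ := by
    have := h.cat (a := p) (b := y' • y • p') (c := y' • y • y' • p') (e := y' • y • y' • p)
      (by grind) (by grind) (by grind)
    grind
  have v9 : d p (y' • y • y' • y • p) = l2 + δ + (l2 + δ) + (l2 + δ + (l2 + δ)) := by
    have := h.cat (a := p) (b := y' • y • y' • p') (c := y' • y • y' • p)
      (e := y' • y • y' • y • p) (by grind) (by grind) (by grind)
    grind
  -- z is not trivial
  have hz1 : z ≠ 1 := by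
    intro h1
    have := g1 p
    rw [h1, one_smul, one_smul] at this
    rw [this, h.self] at v5
    grind
  have zR0 : z • y⁻¹ • p = p' := by
    refine half_shift h hf hz1 (L := l2 + δ) ?_ ?_ s2 ?_
    · rw [← g1, smul_inv_smul]; exact u4
    · rw [← g1 (z • z • y⁻¹ • p), ← g1 (y⁻¹ • p), smul_inv_smul]; exact u8
    · rw [← g1, smul_inv_smul]; exact t24
  have zR1 : z • p = y' • p' := by
    refine half_shift h hf hz1 (L := l2 + δ) ?_ ?_ hq3 ?_
    · rw [← g1]; exact v5
    · rw [← g1 (z • z • p), ← g1 p]; exact v9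
    · rw [← g1, t35, add_comm]
  -- the element s = y'⁻¹ z exchanges p and p'
  have sp : (y'⁻¹ * z) • p = p' := by rw [mul_smul, zR1, inv_smul_smul]
  have sp' : (y'⁻¹ * z) • p' = p := by
    rw [mul_smul, ← zR0, ← g1, smul_inv_smul, inv_smul_smul]
  have hne : p ≠ p' := by
    intro h1
    rw [← h1, h.self] at hq1
    exact absurd hq1.symm (ne_of_gt hδ)
  by_cases hs : y'⁻¹ * z = 1
  · rw [hs, one_smul] at sp
    exact hne sp
  · exact hf.no_inversion _ hs p p' hne ⟨sp, sp'⟩

/-- A group all of whose elements are squares and which acts freely on a `Λ`-tree is abelian. -/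
theorem commutative_of_squares (h : IsLambdaTree d) (hf : ActsFreely G d)
    (hsq : ∀ g : G, ∃ z : G, z * z = g) (a b : G) : a * b = b * a := by
  have ht := h.treeLike
  have := h.nonempty
  have hconj : ∀ a b : G, a ≠ 1 → a = b * a * b⁻¹ ∨ a = (b * a * b⁻¹)⁻¹ := by
    intro a b ha
    obtain ⟨z, hz⟩ := hsq (a * (b * a * b⁻¹) * a⁻¹ * (b * a * b⁻¹))
    exact key_prop ht hf ha rfl hz
  by_cases ha : a = 1
  · simp [ha]
  rcases hconj a b ha with h1 | h1
  · exact eq_mul_inv_iff_mul_eq.1 h1
  · exfalso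
    obtain ⟨c, hc⟩ := hsq b
    have h2 : b * a * b⁻¹ = a⁻¹ := (inv_eq_iff_eq_inv.2 h1).symm
    have h3 : b * a * b⁻¹ = a := by
      rw [← hc]
      rcases hconj a c ha with h4 | h4
      · have : c * c * a * (c * c)⁻¹ = c * (c * a * c⁻¹) * c⁻¹ := by group
        rw [this, ← h4, ← h4]
      · have h5 : c * a * c⁻¹ = a⁻¹ := (inv_eq_iff_eq_inv.2 h4).symm
        have : c * c * a * (c * c)⁻¹ = c * (c * a * c⁻¹) * c⁻¹ := by group
        rw [this, h5]
        have : c * a⁻¹ * c⁻¹ = (c * a * c⁻¹)⁻¹ := by group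
        rw [this, h5, inv_inv]
    rw [h3] at h2
    obtain ⟨r⟩ := ‹Nonempty T›
    have h6 := hyperbolic ht hf ha r
    have h7 : a • a • r = r := by
      conv_lhs => rw [← mul_smul]
      have : a * a = 1 := by
        nth_rewrite 1 [h2]
        simp
      rw [this, one_smul]
    rw [h7, ht.self] at h6
    exact absurd h6 (not_lt.2 (ht.nonneg _ _))

end Tree

/-! ### Existence of free `ℚ`-groups -/

section Existence

/-- Terms in the language of groups with root operations; `root n a` stands for the `(n+1)`-st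
root of `a`. -/
inductive Term (X : Type u) : Type u
  | of : X → Term X
  | one : Term X
  | mul : Term X → Term X → Term X
  | inv : Term X → Term X
  | root : ℕ → Term X → Term X

/-- The `(n+1)`-st root in a `ℚ`-group. -/
noncomputable def qroot {H : Type u} [Group H] (hH : IsQGroup H) (n : ℕ) (g : H) : H :=
  (hH (n + 1) (Nat.succ_pos n) g).choose

lemma qroot_pow {H : Type u} [Group H] (hH : IsQGroup H) (n : ℕ) (g : H) :
    qroot hH n g ^ (n + 1) = g :=
  (hH (n + 1) (Nat.succ_pos n) g).choose_spec.1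

lemma qroot_unique {H : Type u} [Group H] (hH : IsQGroup H) {n : ℕ} (hn : 1 ≤ n) {a b : H}
    (h : a ^ n = b ^ n) : a = b :=
  (hH n hn (b ^ n)).unique h rfl

/-- Evaluation of terms in a `ℚ`-group. -/
noncomputable def Term.eval {X : Type u} {H : Type u} [Group H] (hH : IsQGroup H) (f : X → H) :
    Term X → H
  | .of x => f x
  | .one => 1
  | .mul a b => Term.eval hH f a * Term.eval hH f b
  | .inv a => (Term.eval hH f a)⁻¹
  | .root n a => qroot hH n (Term.eval hH f a)

/-- Two terms are equivalent if they agree in every `ℚ`-group. -/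
def termSetoid (X : Type u) : Setoid (Term X) where
  r a b := ∀ (H : Type u) [Group H] (hH : IsQGroup H) (f : X → H),
    Term.eval hH f a = Term.eval hH f b
  iseqv := ⟨fun _ _ _ _ _ => rfl, fun h _ _ hH f => (h _ hH f).symm,
    fun h h' _ _ hH f => (h _ hH f).trans (h' _ hH f)⟩

/-- The free `ℚ`-group on `X`. -/
def FreeQ (X : Type u) : Type u := Quotient (termSetoid X)

noncomputable instance (X : Type u) : Group (FreeQ X) where
  mul := Quotient.map₂ Term.mul (by
    intro a a' ha b b' hb H _ hH f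
    change Term.eval hH f a * Term.eval hH f b = Term.eval hH f a' * Term.eval hH f b'
    rw [ha H hH f, hb H hH f])
  one := Quotient.mk _ Term.one
  inv := Quotient.map Term.inv (by
    intro a a' ha H _ hH f
    change (Term.eval hH f a)⁻¹ = (Term.eval hH f a')⁻¹
    rw [ha H hH f])
  mul_assoc := by
    rintro ⟨a⟩ ⟨b⟩ ⟨c⟩
    refine Quotient.sound ?_
    intro H _ hH f
    exact mul_assoc _ _ _
  one_mul := by
    rintro ⟨a⟩
    refine Quotient.sound ?_
    intro H _ hH f
    exact one_mul _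
  mul_one := by
    rintro ⟨a⟩
    refine Quotient.sound ?_
    intro H _ hH f
    exact mul_one _
  inv_mul_cancel := by
    rintro ⟨a⟩
    refine Quotient.sound ?_
    intro H _ hH f
    exact inv_mul_cancel _

/-- The class of a term. -/
def FreeQ.mk {X : Type u} (a : Term X) : FreeQ X := Quotient.mk (termSetoid X) a

lemma FreeQ.exists_rep {X : Type u} (a : FreeQ X) : ∃ t, FreeQ.mk t = a :=
  Quotient.exists_rep a

lemma FreeQ.mk_mul {X : Type u} (a b : Term X) :
    FreeQ.mk (Term.mul a b) = FreeQ.mk a * FreeQ.mk b := rfl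

lemma FreeQ.mk_inv {X : Type u} (a : Term X) : FreeQ.mk (Term.inv a) = (FreeQ.mk a)⁻¹ := rfl

lemma FreeQ.mk_one {X : Type u} : FreeQ.mk (Term.one : Term X) = 1 := rfl

/-- The generators of the free `ℚ`-group. -/
def FreeQ.of {X : Type u} (x : X) : FreeQ X := FreeQ.mk (Term.of x)

/-- The extension of a map to a `ℚ`-group. -/
noncomputable def FreeQ.lift {X H : Type u} [Group H] (hH : IsQGroup H) (f : X → H) :
    FreeQ X →* H where
  toFun := Quotient.lift (Term.eval hH f) (fun _ _ h => h H hH f)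
  map_one' := rfl
  map_mul' := by
    rintro ⟨a⟩ ⟨b⟩
    rfl

lemma FreeQ.lift_mk {X H : Type u} [Group H] (hH : IsQGroup H) (f : X → H) (a : Term X) :
    FreeQ.lift hH f (FreeQ.mk a) = Term.eval hH f a := rfl

/-- Two elements with the same image in every `ℚ`-group are equal. -/
lemma FreeQ.sep {X : Type u} (a b : FreeQ X) (h : ∀ (H : Type u) [Group H] (hH : IsQGroup H)
    (f : X → H), FreeQ.lift hH f a = FreeQ.lift hH f b) : a = b := by
  obtain ⟨a, rfl⟩ := FreeQ.exists_rep a
  obtain ⟨b, rfl⟩ := FreeQ.exists_rep b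
  exact Quotient.sound (s := termSetoid X) (fun H _ hH f => h H hH f)

lemma FreeQ.root_pow {X : Type u} (n : ℕ) (a : Term X) :
    FreeQ.mk (Term.root n a) ^ (n + 1) = FreeQ.mk a := by
  apply FreeQ.sep
  intro H _ hH f
  rw [map_pow, FreeQ.lift_mk, FreeQ.lift_mk]
  exact qroot_pow hH n _

lemma freeQ_isQGroup (X : Type u) : IsQGroup (FreeQ X) := by
  intro n hn
  obtain ⟨m, rfl⟩ : ∃ m, n = m + 1 := ⟨n - 1, by omega⟩
  intro g
  obtain ⟨g, rfl⟩ := FreeQ.exists_rep g
  refine ⟨FreeQ.mk (Term.root m g), FreeQ.root_pow m g, ?_⟩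
  intro y hy
  have hy : y ^ (m + 1) = FreeQ.mk g := hy
  apply FreeQ.sep
  intro H _ hH f
  have h1 := congrArg (FreeQ.lift hH f) hy
  have h2 := congrArg (FreeQ.lift hH f) (FreeQ.root_pow m g)
  rw [map_pow] at h1 h2
  exact qroot_unique hH (Nat.succ_pos m) (h1.trans h2.symm)

lemma freeQ_isFreeQGroup (X : Type u) : IsFreeQGroup (FreeQ.of : X → FreeQ X) where
  isQGroup := freeQ_isQGroup X
  lift := by
    intro H _ hH f
    refine ⟨FreeQ.lift hH f, fun x => rfl, ?_⟩
    intro φ hφ
    ext a
    obtain ⟨a, rfl⟩ := FreeQ.exists_rep a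
    induction a with
    | of x => exact hφ x
    | one => rw [FreeQ.mk_one, map_one, map_one]
    | mul a b ha hb => rw [FreeQ.mk_mul, map_mul, map_mul, ha, hb]
    | inv a ha => rw [FreeQ.mk_inv, map_inv, map_inv, ha]
    | root n a ha =>
      refine qroot_unique hH (Nat.succ_pos n) ?_
      rw [← map_pow, ← map_pow]
      change φ (FreeQ.mk (Term.root n a) ^ (n + 1)) =
        FreeQ.lift hH f (FreeQ.mk (Term.root n a) ^ (n + 1))
      rw [FreeQ.root_pow, ha]

end Existence

/-! ### A noncommutative `ℚ`-group: the rational Heisenberg group -/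

section Heisenberg

/-- The rational Heisenberg group. -/
@[ext] structure Heis : Type where
  x : ℚ
  y : ℚ
  z : ℚ

namespace Heis

instance : Mul Heis := ⟨fun a b => ⟨a.x + b.x, a.y + b.y, a.z + b.z + a.x * b.y⟩⟩
instance : One Heis := ⟨⟨0, 0, 0⟩⟩
instance : Inv Heis := ⟨fun a => ⟨-a.x, -a.y, -a.z + a.x * a.y⟩⟩

@[simp] lemma mul_x (a b : Heis) : (a * b).x = a.x + b.x := rfl
@[simp] lemma mul_y (a b : Heis) : (a * b).y = a.y + b.y := rfl
@[simp] lemma mul_z (a b : Heis) : (a * b).z = a.z + b.z + a.x * b.y := rfl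
@[simp] lemma one_x : (1 : Heis).x = 0 := rfl
@[simp] lemma one_y : (1 : Heis).y = 0 := rfl
@[simp] lemma one_z : (1 : Heis).z = 0 := rfl
@[simp] lemma inv_x (a : Heis) : (a⁻¹).x = -a.x := rfl
@[simp] lemma inv_y (a : Heis) : (a⁻¹).y = -a.y := rfl
@[simp] lemma inv_z (a : Heis) : (a⁻¹).z = -a.z + a.x * a.y := rfl

instance : Group Heis where
  mul_assoc a b c := by ext <;> simp <;> ring
  one_mul a := by ext <;> simp
  mul_one a := by ext <;> simp
  inv_mul_cancel a := by ext <;> simp

lemma pow_formula (a : Heis) (n : ℕ) :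
    a ^ n = ⟨n * a.x, n * a.y, n * a.z + (n * (n - 1) / 2) * (a.x * a.y)⟩ := by
  induction n with
  | zero => ext <;> simp
  | succ n ih =>
    rw [pow_succ, ih]
    ext
    · simp; ring
    · simp; ring
    · simp; ring

lemma isQGroup : IsQGroup Heis := by
  intro n hn g
  have hn0 : (n : ℚ) ≠ 0 := by
    have : n ≠ 0 := by omega
    exact_mod_cast this
  refine ⟨⟨g.x / n, g.y / n, (g.z - (n * (n - 1) / 2) * (g.x / n * (g.y / n))) / n⟩, ?_, ?_⟩
  · change _ ^ n = g
    rw [pow_formula]
    ext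
    · simp only; field_simp
    · simp only; field_simp
    · simp only; field_simp; ring
  · intro a ha
    have ha : a ^ n = g := ha
    rw [pow_formula] at ha
    rw [← ha]
    ext
    · simp only; field_simp
    · simp only; field_simp
    · simp only; field_simp; ring

end Heis

lemma isQGroup_ulift : IsQGroup (ULift.{u} Heis) := by
  intro n hn g
  obtain ⟨x, hx, hu⟩ := Heis.isQGroup n hn g.down
  have hx : x ^ n = g.down := hx
  refine ⟨⟨x⟩, ?_, ?_⟩
  · change (⟨x⟩ : ULift.{u} Heis) ^ n = g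
    apply ULift.ext
    rw [ULift.pow_down]
    exact hx
  · intro y hy
    have hy : y ^ n = g := hy
    apply ULift.ext
    apply hu
    rw [← hy, ULift.pow_down]

end Heisenberg

/-- **Negative answer to Baumslag's question.** For every set `X` with at least two elements the
free `ℚ`-group on `X` exists, and it admits no free action on any `Λ`-tree, for any totally
ordered abelian group `Λ`. -/
theorem result (X : Type u) (hX : ∃ x y : X, x ≠ y) :
    (∃ (F : Type u) (_ : Group F) (ι : X → F), IsFreeQGroup ι) ∧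
    ∀ (F : Type u) [Group F] (ι : X → F), IsFreeQGroup ι →
      ∀ (Λ : Type v) [AddCommGroup Λ] [LinearOrder Λ] [IsOrderedAddMonoid Λ]
        (T : Type w) (d : T → T → Λ) [MulAction F T],
        IsLambdaTree d → ¬ ActsFreely F d := by
  refine ⟨⟨FreeQ X, inferInstance, FreeQ.of, freeQ_isFreeQGroup X⟩, ?_⟩
  intro F _ ι hF Λ _ _ _ T d _ hT hact
  classical
  obtain ⟨x, y, hxy⟩ := hX
  have hcomm := commutative_of_squares hT hact (fun g => by
    obtain ⟨z, hz, _⟩ := hF.isQGroup 2 (by norm_num) g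
    exact ⟨z, by rw [← pow_two]; exact hz⟩) (ι x) (ι y)
  obtain ⟨φ, hφ, _⟩ := hF.lift (ULift.{u} Heis) isQGroup_ulift
    (fun t => if t = x then ⟨⟨1, 0, 0⟩⟩ else ⟨⟨0, 1, 0⟩⟩)
  have h := congrArg φ hcomm
  rw [map_mul, map_mul, hφ, hφ, if_pos rfl, if_neg (Ne.symm hxy)] at h
  have h2 := congrArg (fun g : ULift.{u} Heis => g.down.z) h
  simp at h2

end Pool.Agent.Results.MP_c6101b_al.FreeQGroupNotTreeFree
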